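import Mathlib
import Pool.Agent.Lib.MP_65cef3_co.R3

/-!
MP_65cef3_co, counting in induced subgraphs `G[W]` of a triangle-free graph:
`nb`, `dg`: neighbours and degree inside `W`; `rem W v = W - N[v]`; `E W` = sum of the degrees.
-/

set_option autoImplicit false

namespace Pool.MP65cef3.UW

open Finset Pool.MP65cef3.R3
open scoped Classical

variable {V : Type*} (G : SimpleGraph V)

/-- neighbours of `v` inside `W` -/
noncomputable def nb (W : Finset V) (v : V) : Finset V := W.filter (fun w => G.Adj v w)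

/-- degree of `v` inside `W` -/
noncomputable def dg (W : Finset V) (v : V) : ℕ := (nb G W v).card

/-- sum of the degrees of `G[W]` -/
noncomputable def E (W : Finset V) : ℕ := ∑ v ∈ W, dg G W v

/-- `W` minus the closed neighbourhood of `v` -/
noncomputable def rem (W : Finset V) (v : V) : Finset V :=
  W.filter (fun w => w ≠ v ∧ ¬ G.Adj v w)

theorem rem_subset (W : Finset V) (v : V) : rem G W v ⊆ W := Finset.filter_subset _ _

/-- splitting a sum over `W` -/
theorem split {M : Type*} [AddCommMonoid M] {W : Finset V} {v : V} (hv : v ∈ W) (f : V → M) :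
    ∑ x ∈ W, f x = ∑ x ∈ nb G W v, f x + ∑ x ∈ rem G W v, f x + f v := by
  have h1 : ∑ x ∈ W, f x = ∑ x ∈ nb G W v, f x + ∑ x ∈ W.filter (fun w => ¬ G.Adj v w), f x :=
    (Finset.sum_filter_add_sum_filter_not W (fun w => G.Adj v w) f).symm
  have h2 : W.filter (fun w => ¬ G.Adj v w) = insert v (rem G W v) := by
    ext w
    simp only [rem, Finset.mem_filter, Finset.mem_insert]
    constructor
    · rintro ⟨h, h'⟩
      by_cases hw : w = v
      · exact Or.inl hw
      · exact Or.inr ⟨h, hw, h'⟩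
    · rintro (h | ⟨h, _, h'⟩)
      · rw [h]; exact ⟨hv, G.irrefl⟩
      · exact ⟨h, h'⟩
  have h3 : v ∉ rem G W v := by
    intro h
    exact (Finset.mem_filter.mp h).2.1 rfl
  rw [h1, h2, Finset.sum_insert h3]
  rw [add_assoc, add_comm (f v)]

theorem card_rem {W : Finset V} {v : V} (hv : v ∈ W) :
    W.card = dg G W v + (rem G W v).card + 1 := by
  have h := split G hv (fun _ => (1 : ℕ))
  simpa [dg] using h

/-- adjacency indicator -/
noncomputable def ind (x y : V) : ℕ := if G.Adj x y then 1 else 0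

theorem ind_comm (x y : V) : ind G x y = ind G y x := by
  simp [ind, G.adj_comm]

theorem dg_eq (W : Finset V) (v : V) : dg G W v = ∑ w ∈ W, ind G v w := by
  simp [dg, nb, ind]

theorem E_eq (W : Finset V) : E G W = ∑ v ∈ W, ∑ w ∈ W, ind G v w := by
  simp [E, dg_eq]

/-- degree sum of `W - N[v]` -/
theorem E_rem (hG : TF G) {W : Finset V} {v : V} (hv : v ∈ W) :
    E G (rem G W v) + 2 * ∑ w ∈ nb G W v, dg G W w = E G W := by
  have hAA : ∑ x ∈ nb G W v, ∑ y ∈ nb G W v, ind G x y = 0 := by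
    apply Finset.sum_eq_zero
    intro x hx
    apply Finset.sum_eq_zero
    intro y hy
    have h1 := (Finset.mem_filter.mp hx).2
    have h2 := (Finset.mem_filter.mp hy).2
    have h3 : ¬ G.Adj x y := fun h => hG v x y h1 h h2
    simp [ind, h3]
  have hBv : ∑ x ∈ rem G W v, ind G x v = 0 := by
    apply Finset.sum_eq_zero
    intro x hx
    have h1 := (Finset.mem_filter.mp hx).2.2
    have h3 : ¬ G.Adj x v := fun h => h1 h.symm
    simp [ind, h3]
  have hvB : ∑ x ∈ rem G W v, ind G v x = 0 := by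
    rw [← hBv]
    exact Finset.sum_congr rfl (fun x _ => ind_comm G v x)
  have hvv : ind G v v = 0 := by simp [ind]
  have hvA : ∑ x ∈ nb G W v, ind G v x = ∑ x ∈ nb G W v, ind G x v :=
    Finset.sum_congr rfl (fun x _ => ind_comm G v x)
  have hBA : ∑ x ∈ rem G W v, ∑ y ∈ nb G W v, ind G x y
      = ∑ x ∈ nb G W v, ∑ y ∈ rem G W v, ind G x y := by
    rw [Finset.sum_comm]
    exact Finset.sum_congr rfl (fun x _ => Finset.sum_congr rfl (fun y _ => ind_comm G y x))
  have hW : E G W = 2 * (∑ x ∈ nb G W v, ∑ y ∈ rem G W v, ind G x y)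
      + 2 * ∑ x ∈ nb G W v, ind G x v + E G (rem G W v) := by
    rw [E_eq G W, E_eq G (rem G W v)]
    rw [split G hv (fun x => ∑ y ∈ W, ind G x y)]
    simp only [split G hv (fun y => ind G _ y), Finset.sum_add_distrib]
    rw [hAA, hBv, hvB, hvv, hvA, hBA]
    ring
  have hD : ∑ w ∈ nb G W v, dg G W w = (∑ x ∈ nb G W v, ∑ y ∈ rem G W v, ind G x y)
      + ∑ x ∈ nb G W v, ind G x v := by
    simp only [dg_eq, split G hv (fun y => ind G _ y), Finset.sum_add_distrib]
    rw [hAA]
    ring
  rw [hW, hD]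
  ring

theorem sum_sum_nb {M : Type*} [CommSemiring M] (W : Finset V) (g : V → M) :
    ∑ v ∈ W, ∑ w ∈ nb G W v, g w = ∑ w ∈ W, (dg G W w : M) * g w := by
  have h1 : ∀ v ∈ W, ∑ w ∈ nb G W v, g w = ∑ w ∈ W, (ind G w v : M) * g w := by
    intro v _
    rw [nb, Finset.sum_filter]
    refine Finset.sum_congr rfl (fun w _ => ?_)
    by_cases h : G.Adj v w
    · simp [ind, h, h.symm]
    · have h' : ¬ G.Adj w v := fun h2 => h h2.symm
      simp [ind, h, h']
  rw [Finset.sum_congr rfl h1, Finset.sum_comm]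
  refine Finset.sum_congr rfl (fun w _ => ?_)
  rw [← Finset.sum_mul, dg_eq]
  push_cast
  rfl

/-- sum of the squares of the degrees -/
noncomputable def S2 (W : Finset V) : ℕ := ∑ v ∈ W, dg G W v ^ 2

theorem sum_E_rem (hG : TF G) (W : Finset V) :
    ∑ v ∈ W, E G (rem G W v) + 2 * S2 G W = W.card * E G W := by
  have h1 : ∑ v ∈ W, (E G (rem G W v) + 2 * ∑ w ∈ nb G W v, dg G W w) = ∑ _v ∈ W, E G W :=
    Finset.sum_congr rfl (fun v hv => E_rem G hG hv)
  rw [Finset.sum_add_distrib, ← Finset.mul_sum, sum_sum_nb G W (dg G W)] at h1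
  rw [Finset.sum_const, smul_eq_mul] at h1
  simp only [Nat.cast_id] at h1
  simp only [S2, pow_two]
  exact h1

theorem sum_card_rem (W : Finset V) :
    ∑ v ∈ W, ((rem G W v).card : ℝ) = (W.card : ℝ) * W.card - E G W - W.card := by
  have h1 : ∀ v ∈ W, ((rem G W v).card : ℝ) = (W.card : ℝ) - dg G W v - 1 := by
    intro v hv
    have := card_rem G hv
    rw [this]
    push_cast
    ring
  rw [Finset.sum_congr rfl h1, Finset.sum_sub_distrib, Finset.sum_sub_distrib, E]
  simp

theorem sum_card_rem_dg (W : Finset V) :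
    ∑ v ∈ W, ((rem G W v).card : ℝ) * dg G W v
      = ((W.card : ℝ) - 1) * E G W - S2 G W := by
  have h1 : ∀ v ∈ W, ((rem G W v).card : ℝ) * dg G W v
      = ((W.card : ℝ) - 1) * dg G W v - (dg G W v : ℝ) ^ 2 := by
    intro v hv
    have := card_rem G hv
    rw [this]
    push_cast
    ring
  rw [Finset.sum_congr rfl h1, Finset.sum_sub_distrib, ← Finset.mul_sum, E, S2]
  push_cast
  ring

/-- Cauchy-Schwarz -/
theorem E_sq_le (W : Finset V) : (E G W : ℝ) ^ 2 ≤ W.card * S2 G W := by
  have h := sq_sum_le_card_mul_sum_sq (s := W) (f := fun v => (dg G W v : ℝ))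
  rw [E, S2]
  push_cast
  exact h

/-- `E = 0` or `E ≥ 2` -/
theorem E_ne_one (W : Finset V) : E G W = 0 ∨ 2 ≤ E G W := by
  by_cases h : E G W = 0
  · exact Or.inl h
  · right
    have h1 : ∃ v ∈ W, dg G W v ≠ 0 := by
      by_contra hc
      push Not at hc
      exact h (Finset.sum_eq_zero hc)
    obtain ⟨v, hv, hd⟩ := h1
    obtain ⟨w, hw⟩ := Finset.card_pos.mp (Nat.pos_of_ne_zero hd)
    have hwW := (Finset.mem_filter.mp hw).1
    have hadj := (Finset.mem_filter.mp hw).2
    have hd2 : 1 ≤ dg G W w := by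
      apply Finset.card_pos.mpr
      exact ⟨v, Finset.mem_filter.mpr ⟨hv, hadj.symm⟩⟩
    have hne : v ≠ w := G.ne_of_adj hadj
    have hsub : ({v, w} : Finset V) ⊆ W := by
      intro x hx
      rcases Finset.mem_insert.mp hx with rfl | hx
      · exact hv
      · rw [Finset.mem_singleton.mp hx]; exact hwW
    have h2 : ∑ x ∈ ({v, w} : Finset V), dg G W x ≤ E G W :=
      Finset.sum_le_sum_of_subset hsub
    rw [Finset.sum_pair hne] at h2
    have : 1 ≤ dg G W v := Nat.one_le_iff_ne_zero.mpr hd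
    omega

/-- adding `v` to an independent set of `W - N[v]` -/
theorem ind_insert {W J : Finset V} {v : V} (hJ : J ⊆ rem G W v) (hi : Ind G J) :
    Ind G (insert v J) ∧ (insert v J).card = J.card + 1 := by
  have hn : ∀ x ∈ J, x ≠ v ∧ ¬ G.Adj v x := fun x hx => (Finset.mem_filter.mp (hJ hx)).2
  constructor
  · intro x hx y hy hxy
    rcases Finset.mem_insert.mp hx with hxv | hxJ
    · rcases Finset.mem_insert.mp hy with hyv | hyJ
      · rw [hxv, hyv] at hxy; exact G.irrefl hxy
      · rw [hxv] at hxy; exact (hn y hyJ).2 hxy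
    · rcases Finset.mem_insert.mp hy with hyv | hyJ
      · rw [hyv] at hxy; exact (hn x hxJ).2 hxy.symm
      · exact hi x hxJ y hyJ hxy
  · rw [Finset.card_insert_of_notMem]
    intro h
    exact (hn v h).1 rfl

end Pool.MP65cef3.UW
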