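import Mathlib
import Pool.Agent.Lib.MP_65cef3_co.UW.Count

/-!
MP_65cef3_co: small unions of `k` closed neighbourhoods (averaging over the vertices, weighted by
the number of vertices that remain; linear bounds `aa k + bb k * (average degree)`).
-/

set_option autoImplicit false

namespace Pool.MP65cef3.UW

open Finset Pool.MP65cef3.R3
open scoped Classical

variable {V : Type*} (G : SimpleGraph V)

noncomputable def bb (q : ℝ) : ℕ → ℝ
  | 0 => 0
  | k + 1 => 1 + q * bb q k

noncomputable def aa (q r : ℝ) : ℕ → ℝ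
  | 0 => 0
  | k + 1 => 1 + aa q r k + bb q k * r

theorem bb_nonneg {q : ℝ} (hq : 0 ≤ q) (k : ℕ) : 0 ≤ bb q k := by
  induction k with
  | zero => simp [bb]
  | succ k ih => rw [bb]; positivity

theorem aa_nonneg {q r : ℝ} (hq : 0 ≤ q) (hr : 0 ≤ r) (k : ℕ) : 0 ≤ aa q r k := by
  induction k with
  | zero => simp [aa]
  | succ k ih =>
    have := bb_nonneg hq k
    rw [aa]; positivity

theorem bb_le {q : ℝ} (hq : 0 ≤ q) (hq1 : q ≤ 1) (k : ℕ) : bb q k ≤ k := by
  induction k with
  | zero => simp [bb]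
  | succ k ih =>
    have := bb_nonneg hq k
    rw [bb]; push_cast; nlinarith

theorem bb_le2 {θ : ℝ} (h0 : 0 ≤ θ) (h1 : θ ≤ 1) (k : ℕ) :
    bb (1 - θ) k ≤ k - (k.choose 2 : ℝ) * θ + (k.choose 3 : ℝ) * θ ^ 2 := by
  induction k with
  | zero => simp [bb]
  | succ k ih =>
    have h2 : ((k + 1).choose 2 : ℝ) = k + k.choose 2 := by
      rw [Nat.choose_succ_succ' k 1]; push_cast; rw [Nat.choose_one_right]
    have h3 : ((k + 1).choose 3 : ℝ) = k.choose 2 + k.choose 3 := by
      rw [Nat.choose_succ_succ' k 2]; push_cast; ring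
    rw [bb, h2, h3]
    push_cast
    have h4 : (1 - θ) * bb (1 - θ) k
        ≤ (1 - θ) * (k - (k.choose 2 : ℝ) * θ + (k.choose 3 : ℝ) * θ ^ 2) :=
      mul_le_mul_of_nonneg_left ih (by linarith)
    have h5 : 0 ≤ (k.choose 3 : ℝ) * θ ^ 3 := by positivity
    nlinarith

theorem aa_le {q r : ℝ} (hq : 0 ≤ q) (hq1 : q ≤ 1) (hr : 0 ≤ r) (k : ℕ) :
    aa q r k ≤ k + (k.choose 2 : ℝ) * r := by
  induction k with
  | zero => simp [aa]
  | succ k ih =>
    have h2 : ((k + 1).choose 2 : ℝ) = k + k.choose 2 := by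
      rw [Nat.choose_succ_succ' k 1]; push_cast; rw [Nat.choose_one_right]
    have h3 := bb_le hq hq1 k
    rw [aa, h2]
    push_cast
    nlinarith [mul_le_mul_of_nonneg_right h3 hr]

/-- the key inequality -/
theorem key {N t n σ : ℝ} (hNn : N ≤ n) (hn : n ≤ 2 * σ ^ 2)
    (ht0 : 0 ≤ t) (htN : t ≤ N - 1) (h : t = 0 ∨ 1 ≤ t ∨ (t < 1 ∧ 3 * t ≤ N - 1)) :
    0 ≤ (N - 1 - t) * (σ ^ 2 - (2 * σ - 1) * t) + n * (t ^ 2 - t) := by
  have hx : 0 ≤ N - 1 - t := by linarith
  have hn0 : 0 ≤ n := by linarith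
  rcases h with h | h | ⟨h, h3⟩
  · rw [h]
    have : 0 ≤ N - 1 := by linarith
    nlinarith [mul_nonneg this (sq_nonneg σ)]
  · by_cases hs : 0 ≤ σ ^ 2 - (2 * σ - 1) * t
    · have h1 : 0 ≤ t ^ 2 - t := by nlinarith
      have := mul_nonneg hx hs
      have := mul_nonneg hn0 h1
      linarith
    · push Not at hs
      have h1 : n * (σ ^ 2 - (2 * σ - 1) * t) ≤ (N - 1 - t) * (σ ^ 2 - (2 * σ - 1) * t) := by
        apply mul_le_mul_of_nonpos_right _ hs.le
        linarith
      have h2 : 0 ≤ n * (σ - t) ^ 2 := mul_nonneg hn0 (sq_nonneg _)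
      nlinarith
  · have h1 : σ ^ 2 * (1 - t) ≤ σ ^ 2 - (2 * σ - 1) * t := by nlinarith [sq_nonneg (σ - 1)]
    have h2 : (N - 1 - t) * (σ ^ 2 * (1 - t)) ≤ (N - 1 - t) * (σ ^ 2 - (2 * σ - 1) * t) :=
      mul_le_mul_of_nonneg_left h1 hx
    have h4 : 0 ≤ t * (1 - t) := mul_nonneg ht0 (by linarith)
    have h5 : n * (t * (1 - t)) ≤ 2 * σ ^ 2 * (t * (1 - t)) := mul_le_mul_of_nonneg_right hn h4
    have h6 : 0 ≤ σ ^ 2 * (1 - t) * (N - 1 - 3 * t) :=
      mul_nonneg (mul_nonneg (sq_nonneg _) (by linarith)) (by linarith)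
    nlinarith

theorem t_cases {W : Finset V} (hW : W.Nonempty) :
    (E G W : ℝ) / W.card = 0 ∨ 1 ≤ (E G W : ℝ) / W.card ∨
      ((E G W : ℝ) / W.card < 1 ∧ 3 * ((E G W : ℝ) / W.card) ≤ W.card - 1) := by
  have hpos : 0 < W.card := Finset.card_pos.mpr hW
  have hN : (0:ℝ) < W.card := by exact_mod_cast hpos
  rcases E_ne_one G W with h | h
  · left; rw [h]; simp
  · right
    by_cases h1 : W.card ≤ E G W
    · left
      rw [le_div_iff₀ hN, one_mul]
      exact_mod_cast h1
    · right
      push Not at h1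
      constructor
      · rw [div_lt_one hN]; exact_mod_cast h1
      · rw [mul_div_assoc', div_le_iff₀ hN]
        have h2 : 3 * E G W ≤ (W.card - 1) * W.card := by
          obtain ⟨m, hm⟩ : ∃ m, W.card = m + 1 := ⟨W.card - 1, by omega⟩
          rw [hm] at h1 ⊢
          simp only [Nat.add_sub_cancel]
          rcases Nat.lt_or_ge m 3 with h3 | h3
          · have : m = 2 := by omega
            subst this
            omega
          · nlinarith
        have h3 : ((3 * E G W : ℕ) : ℝ) ≤ (((W.card - 1) * W.card : ℕ) : ℝ) := by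
          exact_mod_cast h2
        push_cast [Nat.cast_sub (show 1 ≤ W.card from hpos)] at h3
        exact h3

theorem t_le {W : Finset V} (hW : W.Nonempty) : (E G W : ℝ) / W.card ≤ W.card - 1 := by
  have hN : (0:ℝ) < W.card := by exact_mod_cast Finset.card_pos.mpr hW
  have h := sum_card_rem G W
  have h2 : 0 ≤ ∑ v ∈ W, ((rem G W v).card : ℝ) := Finset.sum_nonneg (fun _ _ => by positivity)
  rw [div_le_iff₀ hN]
  linarith

theorem mul_form {m e a b d : ℝ} (hm : m ≠ 0) :
    m * (1 + d + a + b * (e / m)) = (1 + a) * m + m * d + b * e := by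
  field_simp
  ring

/-- a good vertex exists -/
theorem good (hG : TF G) {n σ : ℝ} (hn2 : n ≤ 2 * σ ^ 2) (hn0 : 0 < n)
    {a b : ℝ} (ha : 0 ≤ a) (hb : 0 ≤ b) (hq : 0 ≤ 1 - (2 * σ - 1) / n)
    {W : Finset V} (hWn : (W.card : ℝ) ≤ n) (hW : W.Nonempty) :
    ∃ v ∈ W,
      ((W.card : ℝ) ≤ 1 + a + b * (σ ^ 2 / n)
        + (1 + (1 - (2 * σ - 1) / n) * b) * (E G W / W.card)) ∨
      (1 + (dg G W v : ℝ) + a + b * (E G (rem G W v) / (rem G W v).card)
        ≤ 1 + a + b * (σ ^ 2 / n)
        + (1 + (1 - (2 * σ - 1) / n) * b) * (E G W / W.card)) := by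
  set N : ℝ := (W.card : ℝ) with hN
  have hNpos : 0 < N := by rw [hN]; exact_mod_cast Finset.card_pos.mpr hW
  set t : ℝ := (E G W : ℝ) / N with ht
  have ht0 : 0 ≤ t := div_nonneg (Nat.cast_nonneg _) hNpos.le
  have hE : (E G W : ℝ) = N * t := by rw [ht]; field_simp
  set q : ℝ := 1 - (2 * σ - 1) / n with hqd
  set r : ℝ := σ ^ 2 / n with hr
  have hr0 : 0 ≤ r := div_nonneg (sq_nonneg _) hn0.le
  set X : ℝ := 1 + a + b * r + (1 + q * b) * t with hX
  by_cases hall : ∀ v ∈ W, rem G W v = ∅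
  · obtain ⟨v, hv⟩ := hW
    refine ⟨v, hv, Or.inl ?_⟩
    have h1 := sum_card_rem G W
    rw [Finset.sum_eq_zero (fun v hv => by rw [hall v hv]; simp)] at h1
    have h2 : N = 1 + t := by
      rw [← hN, hE] at h1
      have : N * (N - t - 1) = 0 := by linarith
      rcases mul_eq_zero.mp this with h | h
      · exact absurd h hNpos.ne'
      · linarith
    have h3 : 0 ≤ b * r := mul_nonneg hb hr0
    have h4 : 0 ≤ q * b * t := mul_nonneg (mul_nonneg hq hb) ht0
    rw [hX]
    nlinarith
  · push Not at hall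
    obtain ⟨v0, hv0, hne0⟩ := hall
    by_contra hc
    push Not at hc
    have h1 : ∀ v ∈ W, ((rem G W v).card : ℝ) * X
        ≤ (1 + a) * (rem G W v).card + (rem G W v).card * dg G W v + b * E G (rem G W v) := by
      intro v hv
      by_cases h0 : (rem G W v).card = 0
      · have he : E G (rem G W v) = 0 := by
          rw [Finset.card_eq_zero] at h0
          rw [h0]; simp [E]
        rw [h0, he]; simp
      · have hm : (0:ℝ) < (rem G W v).card := by exact_mod_cast Nat.pos_of_ne_zero h0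
        have h2 := (hc v hv).2
        have h3 := mul_le_mul_of_nonneg_left h2.le hm.le
        rw [mul_form hm.ne'] at h3
        exact h3
    have h1' : ((rem G W v0).card : ℝ) * X
        < (1 + a) * (rem G W v0).card + (rem G W v0).card * dg G W v0
          + b * E G (rem G W v0) := by
      have hm : (0:ℝ) < (rem G W v0).card := by
        exact_mod_cast Finset.card_pos.mpr hne0
      have h2 := (hc v0 hv0).2
      have h3 := mul_lt_mul_of_pos_left h2 hm
      rw [mul_form hm.ne'] at h3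
      exact h3
    have h5 := Finset.sum_lt_sum h1 ⟨v0, hv0, h1'⟩
    rw [← Finset.sum_mul, Finset.sum_add_distrib, Finset.sum_add_distrib, ← Finset.mul_sum,
      ← Finset.mul_sum, sum_card_rem, sum_card_rem_dg] at h5
    have h6 : ∑ v ∈ W, (E G (rem G W v) : ℝ) = N * (E G W) - 2 * S2 G W := by
      have := sum_E_rem G hG W
      have h6 : (∑ v ∈ W, (E G (rem G W v) : ℝ)) + 2 * S2 G W = N * E G W := by
        rw [hN]; exact_mod_cast this
      linarith
    rw [h6, hE, ← hN] at h5
    have h7 : N * t ^ 2 ≤ S2 G W := by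
      have := E_sq_le G W
      rw [hE] at this
      have h8 : N * (N * t ^ 2) ≤ N * S2 G W := by rw [hN] at *; nlinarith
      exact le_of_mul_le_mul_left h8 hNpos
    have h8 : 0 ≤ (N - 1 - t) * (σ ^ 2 - (2 * σ - 1) * t) + n * (t ^ 2 - t) := by
      apply key hWn hn2 ht0
      · have := t_le G hW
        rw [← hN] at this
        linarith
      · have := t_cases G hW
        rw [← hN] at this
        exact this
    have h9 : (N - 1 - t) * (σ ^ 2 - (2 * σ - 1) * t) + n * (t ^ 2 - t)
        = n * ((r + q * t) * (N - 1 - t) - (N * t - 2 * t ^ 2)) := by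
      rw [hr, hqd]
      field_simp
      ring
    rw [h9] at h8
    have h10 : 0 ≤ (r + q * t) * (N - 1 - t) - (N * t - 2 * t ^ 2) :=
      nonneg_of_mul_nonneg_right h8 hn0
    have h11 : 0 ≤ N * (b * ((r + q * t) * (N - 1 - t) - (N * t - 2 * t ^ 2))) :=
      mul_nonneg hNpos.le (mul_nonneg hb h10)
    have h12 : (N * N - N * t - N) * X
        = (1 + a) * (N * N - N * t - N) + N * t * (N - 1 - t)
          + N * (b * ((r + q * t) * (N - 1 - t))) := by
      rw [hX]; ring
    rw [h12] at h5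
    have h13 : b * (2 * (N * t ^ 2)) ≤ b * (2 * (S2 G W : ℝ)) :=
      mul_le_mul_of_nonneg_left (by linarith) hb
    nlinarith

/-- greedy choice of `k` vertices -/
theorem greedyk (hG : TF G) {n σ : ℝ} (hn2 : n ≤ 2 * σ ^ 2) (hn0 : 0 < n)
    (hq : 0 ≤ 1 - (2 * σ - 1) / n) :
    ∀ (k : ℕ) (W : Finset V), (W.card : ℝ) ≤ n →
      ∃ U ⊆ W, (U.card : ℝ) ≤ aa (1 - (2 * σ - 1) / n) (σ ^ 2 / n) k
          + bb (1 - (2 * σ - 1) / n) k * (E G W / W.card) ∧
        (U = W ∨ ∀ J ⊆ W, (∀ x ∈ J, x ∉ U) → Ind G J →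
          ∃ J' ⊆ W, Ind G J' ∧ J'.card = J.card + k) := by
  have hr0 : 0 ≤ σ ^ 2 / n := div_nonneg (sq_nonneg _) hn0.le
  intro k
  induction k with
  | zero =>
    intro W _
    refine ⟨∅, by simp, by simp [aa, bb], Or.inr ?_⟩
    intro J hJ _ hi
    exact ⟨J, hJ, hi, rfl⟩
  | succ k ih =>
    intro W hWn
    have ha := aa_nonneg hq hr0 k
    have hb := bb_nonneg hq k
    rcases W.eq_empty_or_nonempty with h0 | hW
    · refine ⟨∅, by simp, ?_, Or.inl h0.symm⟩
      have := aa_nonneg hq hr0 (k + 1)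
      rw [h0]; simpa [E] using this
    · obtain ⟨v, hv, h | h⟩ := good G hG hn2 hn0 ha hb hq hWn hW
      · exact ⟨W, Finset.Subset.refl _, h, Or.inl rfl⟩
      · have hcard := card_rem G hv
        have hrn : ((rem G W v).card : ℝ) ≤ n := by
          refine le_trans ?_ hWn
          exact_mod_cast Finset.card_le_card (rem_subset G W v)
        obtain ⟨U, hU, hUc, hUJ⟩ := ih (rem G W v) hrn
        refine ⟨(W \ rem G W v) ∪ U, ?_, ?_, ?_⟩
        · exact Finset.union_subset Finset.sdiff_subset (hU.trans (rem_subset G W v))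
        · have h1 : (((W \ rem G W v) ∪ U).card : ℝ) ≤ 1 + dg G W v + U.card := by
            have h2 := Finset.card_union_le (W \ rem G W v) U
            have h3 := Finset.card_sdiff_of_subset (rem_subset G W v)
            have h4 : ((W \ rem G W v) ∪ U).card ≤ 1 + dg G W v + U.card := by omega
            exact_mod_cast h4
          rw [aa, bb]
          linarith
        · rcases hUJ with h1 | h1
          · left
            rw [h1]
            exact Finset.sdiff_union_of_subset (rem_subset G W v)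
          · right
            intro J hJ hJU hi
            have hJ2 : J ⊆ rem G W v := by
              intro x hx
              have h2 := hJU x hx
              rw [Finset.mem_union, Finset.mem_sdiff] at h2
              by_contra h3
              exact h2 (Or.inl ⟨hJ hx, h3⟩)
            have hJ3 : ∀ x ∈ J, x ∉ U := by
              intro x hx h3
              exact hJU x hx (Finset.mem_union.mpr (Or.inr h3))
            obtain ⟨J', hJ', hJi, hJc⟩ := h1 J hJ2 hJ3 hi
            obtain ⟨h3, h4⟩ := ind_insert G hJ' hJi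
            refine ⟨insert v J', ?_, h3, by omega⟩
            intro x hx
            rcases Finset.mem_insert.mp hx with rfl | hx
            · exact hv
            · exact rem_subset G W v (hJ' hx)

end Pool.MP65cef3.UW
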