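import Mathlib
import Pool.Agent.Lib.MP_65cef3_co.UW.Count

/-!
MP_65cef3_co: large independent sets in triangle-free graphs (Ajtai-Komlos-Szemeredi, with the
induction of Shearer for the convex functions `F ρ A J t = sum_(j<J) 1/(A ρ^j+t)`).
-/

set_option autoImplicit false

namespace Pool.MP65cef3.UW

open Finset Pool.MP65cef3.R3
open scoped Classical

variable {V : Type*} (G : SimpleGraph V)

noncomputable def F (ρ A : ℝ) (J : ℕ) (t : ℝ) : ℝ := ∑ j ∈ range J, 1 / (A * ρ ^ j + t)

/-- the constant -/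
noncomputable def B (ρ A : ℝ) : ℝ := ρ / (ρ - 1) * (1 + 3 / (2 * A))

theorem term_bound {a t ρ : ℝ} (hρ : 1 < ρ) (ha : 0 < a) (ht : 0 ≤ t) :
    (a + a * t + 2 * t) / (a + t) ^ 2
      ≤ 3 / (2 * a) + ρ / (ρ - 1) * (t / (a + t) - t / (ρ * a + t)) := by
  have hx : 0 < a + t := by linarith
  have hρ0 : 0 < ρ := by linarith
  have hρ1 : 0 < ρ - 1 := by linarith
  have hy : 0 < ρ * a + t := by positivity
  have h1 : a / (a + t) ^ 2 ≤ 1 / a := by
    rw [div_le_div_iff₀ (by positivity) ha]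
    nlinarith [mul_nonneg ha.le ht]
  have h2 : 2 * t / (a + t) ^ 2 ≤ 1 / (2 * a) := by
    rw [div_le_div_iff₀ (by positivity) (by positivity)]
    nlinarith [sq_nonneg (a - t)]
  have h3 : a * t / (a + t) ^ 2 ≤ ρ / (ρ - 1) * (t / (a + t) - t / (ρ * a + t)) := by
    have h4 : ρ / (ρ - 1) * (t / (a + t) - t / (ρ * a + t))
        = ρ * (a * t) / ((a + t) * (ρ * a + t)) := by
      field_simp
      ring
    rw [h4, div_le_div_iff₀ (by positivity) (by positivity)]
    have h5 : 0 ≤ a * t * (a + t) * ((ρ - 1) * t) := by positivity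
    nlinarith
  have h6 : (a + a * t + 2 * t) / (a + t) ^ 2
      = a / (a + t) ^ 2 + a * t / (a + t) ^ 2 + 2 * t / (a + t) ^ 2 := by
    field_simp
  have h7 : (3:ℝ) / (2 * a) = 1 / a + 1 / (2 * a) := by
    field_simp
    norm_num
  rw [h6, h7]
  linarith

theorem sum_term_bound {ρ A : ℝ} (hρ : 1 < ρ) (hA : 0 < A) (J : ℕ) {t : ℝ} (ht : 0 ≤ t) :
    ∑ j ∈ range J, (A * ρ ^ j + A * ρ ^ j * t + 2 * t) / (A * ρ ^ j + t) ^ 2 ≤ B ρ A := by
  have hρ0 : 0 < ρ := by linarith
  have hρ1 : 0 < ρ - 1 := by linarith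
  have key : ∀ J : ℕ, ∑ j ∈ range J, (A * ρ ^ j + A * ρ ^ j * t + 2 * t) / (A * ρ ^ j + t) ^ 2
      ≤ ρ / (ρ - 1) * (3 / (2 * A) * (1 - 1 / ρ ^ J))
        + ρ / (ρ - 1) * (t / (A + t) - t / (A * ρ ^ J + t)) := by
    intro J
    induction J with
    | zero => simp
    | succ J ih =>
      rw [Finset.sum_range_succ]
      have h1 : 0 < A * ρ ^ J := by positivity
      have h2 := term_bound hρ h1 ht
      have h4 : A * ρ ^ (J + 1) = ρ * (A * ρ ^ J) := by rw [pow_succ]; ring
      have h3 : 3 / (2 * (A * ρ ^ J))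
          = ρ / (ρ - 1) * (3 / (2 * A) * (1 - 1 / ρ ^ (J + 1)))
            - ρ / (ρ - 1) * (3 / (2 * A) * (1 - 1 / ρ ^ J)) := by
        rw [pow_succ]
        field_simp
        ring
      rw [h4]
      linarith
  have h := key J
  have h1 : (0:ℝ) ≤ 1 / ρ ^ J := by positivity
  have h2 : t / (A + t) ≤ 1 := by
    rw [div_le_one (by linarith)]
    linarith
  have h3 : 0 ≤ t / (A * ρ ^ J + t) := by positivity
  have h4 : 0 ≤ ρ / (ρ - 1) := by positivity
  have h5 : 3 / (2 * A) * (1 - 1 / ρ ^ J) ≤ 3 / (2 * A) := by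
    have : 0 ≤ 3 / (2 * A) * (1 / ρ ^ J) := by positivity
    linarith
  have h6 := mul_le_mul_of_nonneg_left h5 h4
  have h7 : ρ / (ρ - 1) * (t / (A + t) - t / (A * ρ ^ J + t)) ≤ ρ / (ρ - 1) * 1 :=
    mul_le_mul_of_nonneg_left (by linarith) h4
  rw [B]
  linarith

theorem B_pos {ρ A : ℝ} (hρ : 1 < ρ) (hA : 0 < A) : 0 < B ρ A := by
  have hρ0 : 0 < ρ := by linarith
  have hρ1 : 0 < ρ - 1 := by linarith
  rw [B]; positivity

/-- one term of the average -/
theorem avg_term (hG : TF G) {W : Finset V} (hW : W.Nonempty) {a : ℝ} (ha : 0 < a) :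
    (W.card : ℝ) * (W.card * (1 / (a + E G W / W.card))
      - (a + a * (E G W / W.card) + 2 * (E G W / W.card)) / (a + E G W / W.card) ^ 2)
    ≤ ∑ v ∈ W, ((rem G W v).card : ℝ) * (1 / (a + E G (rem G W v) / (rem G W v).card)) := by
  set N : ℝ := (W.card : ℝ) with hN
  have hNpos : 0 < N := by
    rw [hN]; exact_mod_cast Finset.card_pos.mpr hW
  set t : ℝ := (E G W : ℝ) / N with ht
  have ht0 : 0 ≤ t := by positivity
  have hE : (E G W : ℝ) = N * t := by rw [ht]; field_simp
  set x : ℝ := a + t with hx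
  have hx0 : 0 < x := by rw [hx]; linarith
  have hx2 : 0 < x ^ 2 := pow_pos hx0 2
  have h1 : ∀ v ∈ W, 2 * ((rem G W v).card : ℝ) / x
      - (a * (rem G W v).card + E G (rem G W v)) / x ^ 2
      ≤ ((rem G W v).card : ℝ) * (1 / (a + E G (rem G W v) / (rem G W v).card)) := by
    intro v _
    by_cases h0 : (rem G W v).card = 0
    · have he : E G (rem G W v) = 0 := by
        rw [Finset.card_eq_zero] at h0
        rw [h0]; simp [E]
      rw [h0, he]; simp
    · have hm : (0:ℝ) < (rem G W v).card := by exact_mod_cast Nat.pos_of_ne_zero h0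
      set m : ℝ := ((rem G W v).card : ℝ)
      set e : ℝ := (E G (rem G W v) : ℝ) with he
      have he0 : 0 ≤ e := Nat.cast_nonneg _
      have ha0 : 0 < a := ha
      set y : ℝ := a + e / m with hy
      have hy0 : 0 < y := add_pos_of_pos_of_nonneg ha0 (div_nonneg he0 hm.le)
      have h2 : 2 / x - y / x ^ 2 ≤ 1 / y := by
        rw [div_sub_div _ _ hx0.ne' hx2.ne', div_le_div_iff₀ (mul_pos hx0 hx2) hy0]
        nlinarith [mul_nonneg hx0.le (sq_nonneg (x - y))]
      have h3 : 2 * m / x - (a * m + e) / x ^ 2 = m * (2 / x - y / x ^ 2) := by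
        rw [hy]; field_simp
      rw [h3]
      exact mul_le_mul_of_nonneg_left h2 hm.le
  refine le_trans ?_ (Finset.sum_le_sum h1)
  have h4 : ∑ v ∈ W, (2 * ((rem G W v).card : ℝ) / x
      - (a * (rem G W v).card + E G (rem G W v)) / x ^ 2)
      = 2 * (∑ v ∈ W, ((rem G W v).card : ℝ)) / x
        - (a * (∑ v ∈ W, ((rem G W v).card : ℝ)) + ∑ v ∈ W, (E G (rem G W v) : ℝ)) / x ^ 2 := by
    rw [Finset.sum_sub_distrib, ← Finset.sum_div, ← Finset.sum_div, Finset.sum_add_distrib,
      ← Finset.mul_sum, ← Finset.mul_sum]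
  rw [h4, sum_card_rem]
  have h5 : ∑ v ∈ W, (E G (rem G W v) : ℝ) = N * (E G W) - 2 * S2 G W := by
    have := sum_E_rem G hG W
    have h6 : (∑ v ∈ W, (E G (rem G W v) : ℝ)) + 2 * S2 G W = N * E G W := by
      rw [hN]; exact_mod_cast this
    linarith
  rw [h5, hE]
  have h7 : N * t ^ 2 ≤ S2 G W := by
    have := E_sq_le G W
    rw [hE] at this
    have h8 : N * (N * t ^ 2) ≤ N * S2 G W := by rw [hN] at *; nlinarith
    exact le_of_mul_le_mul_left h8 hNpos
  have h9 : (2 * (N * N - N * t - N)) / x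
      - (a * (N * N - N * t - N) + (N * (N * t) - 2 * (N * t ^ 2))) / x ^ 2
      = N * (N * (1 / x) - (a + a * t + 2 * t) / x ^ 2) := by
    have : a = x - t := by rw [hx]; ring
    rw [this]
    field_simp
    ring
  rw [← h9]
  have h10 : (a * (N * N - N * t - N) + (N * (N * t) - 2 * (S2 G W : ℝ))) / x ^ 2
      ≤ (a * (N * N - N * t - N) + (N * (N * t) - 2 * (N * t ^ 2))) / x ^ 2 := by
    apply div_le_div_of_nonneg_right _ hx2.le
    linarith
  linarith

/-- Ajtai-Komlos-Szemeredi / Shearer -/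
theorem aks (hG : TF G) {ρ A : ℝ} (hρ : 1 < ρ) (hA : 0 < A) (J : ℕ) :
    ∀ (n : ℕ) (W : Finset V), W.card = n →
    ∃ I ⊆ W, Ind G I ∧ (W.card : ℝ) * (1 / B ρ A * F ρ A J (E G W / W.card)) ≤ I.card := by
  have hB := B_pos hρ hA
  intro n
  induction n using Nat.strong_induction_on with
  | _ n ih =>
    intro W hWn
    rcases W.eq_empty_or_nonempty with h0 | hW
    · refine ⟨∅, by simp, fun x hx => by simp at hx, ?_⟩
      rw [h0]; simp
    · have hNpos : (0:ℝ) < W.card := by exact_mod_cast Finset.card_pos.mpr hW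
      have ht0 : (0:ℝ) ≤ E G W / W.card := by positivity
      have hex : ∃ v ∈ W, (W.card : ℝ) * (1 / B ρ A * F ρ A J (E G W / W.card))
          ≤ 1 + (rem G W v).card * (1 / B ρ A * F ρ A J (E G (rem G W v) / (rem G W v).card)) := by
        by_contra hc
        push Not at hc
        have h1 := Finset.sum_lt_sum_of_nonempty hW hc
        rw [Finset.sum_add_distrib] at h1
        simp only [Finset.sum_const, nsmul_eq_mul, mul_one] at h1
        have h2 : ∑ v ∈ W, ((rem G W v).card : ℝ) *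
            (1 / B ρ A * F ρ A J (E G (rem G W v) / (rem G W v).card))
            = 1 / B ρ A * ∑ j ∈ range J, ∑ v ∈ W, ((rem G W v).card : ℝ) *
              (1 / (A * ρ ^ j + E G (rem G W v) / (rem G W v).card)) := by
          rw [Finset.sum_comm, Finset.mul_sum]
          refine Finset.sum_congr rfl (fun v _ => ?_)
          rw [F, ← Finset.mul_sum]
          ring
        have h3 : ∑ j ∈ range J, ((W.card : ℝ) * (W.card * (1 / (A * ρ ^ j + E G W / W.card))
            - (A * ρ ^ j + A * ρ ^ j * (E G W / W.card) + 2 * (E G W / W.card))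
              / (A * ρ ^ j + E G W / W.card) ^ 2))
            ≤ ∑ j ∈ range J, ∑ v ∈ W, ((rem G W v).card : ℝ) *
              (1 / (A * ρ ^ j + E G (rem G W v) / (rem G W v).card)) :=
          Finset.sum_le_sum (fun j _ => avg_term G hG hW (mul_pos hA (pow_pos (by linarith) j)))
        rw [← Finset.mul_sum, Finset.sum_sub_distrib, ← Finset.mul_sum] at h3
        have h4 := sum_term_bound hρ hA J ht0
        rw [h2] at h1
        have h5 : ∑ j ∈ range J, 1 / (A * ρ ^ j + (E G W : ℝ) / W.card)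
            = F ρ A J (E G W / W.card) := rfl
        rw [h5] at h3
        have h6 : (W.card : ℝ) * (W.card * F ρ A J (E G W / W.card) - B ρ A)
            ≤ (W.card : ℝ) * (W.card * F ρ A J (E G W / W.card)
              - ∑ j ∈ range J, (A * ρ ^ j + A * ρ ^ j * (E G W / W.card) + 2 * (E G W / W.card))
              / (A * ρ ^ j + E G W / W.card) ^ 2) := by
          apply mul_le_mul_of_nonneg_left _ hNpos.le
          linarith
        have h7 := mul_le_mul_of_nonneg_left (le_trans h6 h3) (one_div_pos.mpr hB).le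
        have h8 : 1 / B ρ A * ((W.card : ℝ) * (W.card * F ρ A J (E G W / W.card) - B ρ A))
            = (W.card : ℝ) * (W.card * (1 / B ρ A * F ρ A J (E G W / W.card))) - W.card := by
          field_simp
        rw [h8] at h7
        linarith
      obtain ⟨v, hv, hle⟩ := hex
      have hcard := card_rem G hv
      obtain ⟨I, hI, hIi, hIc⟩ := ih (rem G W v).card (by omega) (rem G W v) rfl
      obtain ⟨h1, h2⟩ := ind_insert G hI hIi
      refine ⟨insert v I, ?_, h1, ?_⟩
      · intro x hx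
        rcases Finset.mem_insert.mp hx with rfl | hx
        · exact hv
        · exact rem_subset G W v (hI hx)
      · rw [h2]
        push_cast
        linarith

theorem F_lower {ρ A : ℝ} {J : ℕ} {t x : ℝ} (hρ : 0 < ρ) (hA : 0 < A) (ht : 0 ≤ t)
    (hJ : ∀ j < J, A * ρ ^ j + t ≤ x) :
    (J : ℝ) / x ≤ F ρ A J t := by
  have h1 : ∀ j ∈ range J, 1 / x ≤ 1 / (A * ρ ^ j + t) := by
    intro j hj
    have := hJ j (Finset.mem_range.mp hj)
    apply one_div_le_one_div_of_le (by positivity)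
    linarith
  have h2 := Finset.sum_le_sum h1
  rw [Finset.sum_const, Finset.card_range, nsmul_eq_mul] at h2
  rw [F]
  calc (J : ℝ) / x = J * (1 / x) := by ring
    _ ≤ _ := h2

end Pool.MP65cef3.UW
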