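import Mathlib
import Pool.Agent.Lib.MP_65cef3_co.UW.Greedy
import Pool.Agent.Lib.MP_65cef3_co.UW.Indep

/-!
MP_65cef3_co: upper bounds for the sums of consecutive differences of R(3,s).
-/

set_option autoImplicit false

namespace Pool.MP65cef3.UW

open Finset Pool.MP65cef3.R3
open scoped Classical

/-- R(3,s) -/
noncomputable def Rr (s : ℕ) : ℕ := sInf (RSet s)

theorem Rr_le (s : ℕ) : Rr s ≤ s * s := by
  apply Nat.sInf_le
  intro G
  by_contra h
  push Not at h
  obtain ⟨h1, h2⟩ := h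
  rw [tf_iff] at h1
  rw [ind_iff'] at h2
  obtain ⟨B, _, hB, hBc⟩ := greedy G h1 s Finset.univ (by simp)
  have := h2 B hB
  omega

theorem Rr_pos {s : ℕ} (hs : 1 ≤ s) : 1 ≤ Rr s := by
  have h := lower (s := s) (V := Fin 0) ⊥ (by intro a; exact a.elim0) (by
    intro A _
    have : A = ∅ := Finset.eq_empty_of_isEmpty A
    rw [this]; simp only [Finset.card_empty]; omega)
  simp only [Fintype.card_fin] at h
  exact h

/-- `K_{s-1,s-1}` -/
theorem Rr_lower {s : ℕ} (hs : 1 ≤ s) : 2 * (s - 1) < Rr s := by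
  let G : SimpleGraph (Bool × Fin (s - 1)) :=
    { Adj := fun x y => x.1 ≠ y.1
      symm := ⟨fun x y h => h.symm⟩
      loopless := ⟨fun x h => h rfl⟩ }
  have h := lower (s := s) G (by
    intro a b c hab hbc hac
    have hab' : a.1 ≠ b.1 := hab
    have hbc' : b.1 ≠ c.1 := hbc
    have hac' : a.1 ≠ c.1 := hac
    revert hab' hbc' hac'
    rcases a.1 with _ | _ <;> rcases b.1 with _ | _ <;> rcases c.1 with _ | _ <;> simp) (by
    intro A hA
    have h1 : A.card ≤ s - 1 := by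
      rcases A.eq_empty_or_nonempty with h0 | ⟨x, hx⟩
      · rw [h0]; simp
      · have hsub : A ⊆ Finset.univ.image
            (fun j : Fin (s - 1) => ((x.1, j) : Bool × Fin (s - 1))) := by
          intro y hy
          have h2 : ¬ x.1 ≠ y.1 := hA x hx y hy
          push Not at h2
          rw [Finset.mem_image]
          exact ⟨y.2, Finset.mem_univ _, by rw [h2]⟩
        calc A.card ≤ _ := Finset.card_le_card hsub
          _ ≤ _ := Finset.card_image_le
          _ = s - 1 := by simp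
    omega)
  have hc : Fintype.card (Bool × Fin (s - 1)) = 2 * (s - 1) := by simp
  rw [hc] at h
  exact h

theorem t_le_of_ind {n s : ℕ} (hs : 1 ≤ s) (G : SimpleGraph (Fin n)) (hG : TF G)
    (hI : ∀ A : Finset (Fin n), Ind G A → A.card < s) :
    (E G Finset.univ : ℝ) / (Finset.univ : Finset (Fin n)).card ≤ (s : ℝ) - 1 := by
  have h1 : ∀ v ∈ (Finset.univ : Finset (Fin n)), dg G Finset.univ v ≤ s - 1 := by
    intro v _
    have h2 : Ind G (nb G Finset.univ v) := by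
      intro x hx y hy hxy
      exact hG v x y (Finset.mem_filter.mp hx).2 hxy (Finset.mem_filter.mp hy).2
    have := hI _ h2
    rw [dg]; omega
  have h2 : E G Finset.univ ≤ (Finset.univ : Finset (Fin n)).card * (s - 1) := by
    rw [E]
    calc _ ≤ ∑ _v ∈ (Finset.univ : Finset (Fin n)), (s - 1) := Finset.sum_le_sum h1
      _ = _ := by simp
  have h3 : (0:ℝ) ≤ (s : ℝ) - 1 := by
    have : (1:ℝ) ≤ s := by exact_mod_cast hs
    linarith
  apply div_le_of_le_mul₀ (by positivity) h3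
  have h4 : ((E G Finset.univ : ℕ) : ℝ)
      ≤ (((Finset.univ : Finset (Fin n)).card * (s - 1) : ℕ) : ℝ) := by exact_mod_cast h2
  push_cast [Nat.cast_sub hs] at h4
  linarith

/-- main inequality -/
theorem window {s k : ℕ} (hs : 3 ≤ s) (hk : k < s) :
    (Rr s : ℝ) - Rr (s - k) ≤ k * s
      - (k.choose 2 : ℝ) * (s - 1) * (s - 2) / (Rr s - 1)
      + (k.choose 3 : ℝ) * (s - 1) * (2 * s - 3) ^ 2 / (Rr s - 1) ^ 2 := by
  have hR1 : 2 * (s - 1) < Rr s := Rr_lower (by omega)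
  have hR2 : Rr s ≤ s * s := Rr_le s
  obtain ⟨n, hn⟩ : ∃ n, Rr s = n + 1 := ⟨Rr s - 1, by omega⟩
  obtain ⟨G, hG, hI⟩ := extremal (s := s) (n := n) (by
    have : Rr s = sInf (RSet s) := rfl
    omega)
  have hsr : (3:ℝ) ≤ s := by exact_mod_cast hs
  have hnr : (Rr s : ℝ) - 1 = n := by rw [hn]; push_cast; ring
  have hn1 : (2:ℝ) * (s - 1) ≤ n := by
    have h : 2 * (s - 1) ≤ n := by omega
    have h' : ((2 * (s - 1) : ℕ) : ℝ) ≤ n := by exact_mod_cast h
    push_cast [Nat.cast_sub (show 1 ≤ s by omega)] at h'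
    exact h'
  have hn2 : (n : ℝ) ≤ 2 * ((s : ℝ) - 1) ^ 2 := by
    have h : n + 1 ≤ s * s := by omega
    have h' : (n : ℝ) + 1 ≤ s * s := by exact_mod_cast h
    nlinarith
  set σ : ℝ := (s : ℝ) - 1 with hσ
  have hn0 : (0:ℝ) < n := by linarith
  have hθ0 : 0 ≤ (2 * σ - 1) / n := div_nonneg (by linarith) hn0.le
  have hθ1 : (2 * σ - 1) / n ≤ 1 := by rw [div_le_one hn0]; linarith
  have hq : 0 ≤ 1 - (2 * σ - 1) / n := by linarith
  obtain ⟨U, hU, hUc, hUJ⟩ := greedyk G hG hn2 hn0 hq k Finset.univ (by simp)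
  have ht := t_le_of_ind (by omega) G hG hI
  rw [← hσ] at ht
  -- count
  have hcount : n < U.card + Rr (s - k) := by
    rcases hUJ with h | h
    · rw [h]
      have := Rr_pos (s := s - k) (by omega)
      simp
      omega
    · have h2 := lower (s := s - k) (V := {x : Fin n // x ∉ U})
        (G.comap (Function.Embedding.subtype _)) (by
          intro a b c hab hbc hac
          exact hG _ _ _ hab hbc hac) (by
          intro A hA
          have h3 : ∀ x ∈ A.map (Function.Embedding.subtype _), x ∉ U := by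
            intro x hx
            obtain ⟨y, _, rfl⟩ := Finset.mem_map.mp hx
            exact y.2
          have h4 : Ind G (A.map (Function.Embedding.subtype _)) := by
            intro x hx y hy hxy
            obtain ⟨x', hx', rfl⟩ := Finset.mem_map.mp hx
            obtain ⟨y', hy', rfl⟩ := Finset.mem_map.mp hy
            exact hA x' hx' y' hy' hxy
          obtain ⟨J', _, hJi, hJc⟩ := h _ (Finset.subset_univ _) h3 h4
          have := hI J' hJi
          rw [Finset.card_map] at hJc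
          omega)
      have h5 : Fintype.card {x : Fin n // x ∉ U} = n - U.card := by
        rw [Fintype.card_subtype_compl]
        simp
      rw [h5] at h2
      have h6 : sInf (RSet (s - k)) = Rr (s - k) := rfl
      omega
  have hcount' : (Rr s : ℝ) - Rr (s - k) ≤ U.card := by
    have h : (n : ℝ) + 1 ≤ U.card + Rr (s - k) := by exact_mod_cast hcount
    rw [hn]; push_cast; linarith
  rw [hnr]
  have hb1 := bb_nonneg hq k
  have hb2 := bb_le2 hθ0 hθ1 k
  have hr0 : 0 ≤ σ ^ 2 / n := div_nonneg (sq_nonneg _) hn0.le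
  have ha2 := aa_le hq (by linarith) hr0 k
  have hσ0 : 0 ≤ σ := by linarith
  have h7 : bb (1 - (2 * σ - 1) / n) k *
      (E G Finset.univ / (Finset.univ : Finset (Fin n)).card)
      ≤ (k - (k.choose 2 : ℝ) * ((2 * σ - 1) / n)
        + (k.choose 3 : ℝ) * ((2 * σ - 1) / n) ^ 2) * σ :=
    le_trans (mul_le_mul_of_nonneg_left ht hb1) (mul_le_mul_of_nonneg_right hb2 hσ0)
  have h8 : (k : ℝ) * s - (k.choose 2 : ℝ) * σ * (s - 2) / n
      + (k.choose 3 : ℝ) * σ * (2 * s - 3) ^ 2 / n ^ 2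
      = (k + (k.choose 2 : ℝ) * (σ ^ 2 / n)) + (k - (k.choose 2 : ℝ) * ((2 * σ - 1) / n)
        + (k.choose 3 : ℝ) * ((2 * σ - 1) / n) ^ 2) * σ := by
    have h9 : (s : ℝ) = σ + 1 := by rw [hσ]; ring
    rw [h9]
    field_simp
    ring
  rw [h8]
  linarith

/-- `R(3,s) ≤ (1+o(1)) s^2/log s` -/
theorem Rr_log {ε : ℝ} (h0 : 0 < ε) :
    ∃ s0 : ℕ, ∀ s : ℕ, s0 ≤ s →
      ((Rr s : ℝ) - 1) * ((1 - ε) * Real.log s) ≤ (1 + ε) ^ 3 * ((s : ℝ) - 1) ^ 2 := by
  have hev : ∀ᶠ s : ℕ in Filter.atTop, Real.log (3 / ε ^ 2) / ε ≤ Real.log (s : ℝ) :=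
    (Real.tendsto_log_atTop.comp tendsto_natCast_atTop_atTop).eventually_ge_atTop _
  obtain ⟨s1, hs1⟩ := Filter.eventually_atTop.mp hev
  refine ⟨max s1 2, ?_⟩
  intro s hs
  have hs2 : 2 ≤ s := le_trans (le_max_right _ _) hs
  have hL := hs1 s (le_trans (le_max_left _ _) hs)
  have hsr : (2:ℝ) ≤ s := by exact_mod_cast hs2
  have hR1 : 2 * (s - 1) < Rr s := Rr_lower (by omega)
  have hlogs : 0 ≤ Real.log (s : ℝ) := Real.log_natCast_nonneg s
  by_cases hε1 : 1 ≤ ε
  · have hn0 : (0:ℝ) ≤ (Rr s : ℝ) - 1 := by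
      have : 1 ≤ Rr s := by omega
      have : (1:ℝ) ≤ Rr s := by exact_mod_cast this
      linarith
    have h1 : ((Rr s : ℝ) - 1) * ((1 - ε) * Real.log s) ≤ 0 :=
      mul_nonpos_of_nonneg_of_nonpos hn0 (mul_nonpos_of_nonpos_of_nonneg (by linarith) hlogs)
    have h2 : 0 ≤ (1 + ε) ^ 3 * ((s : ℝ) - 1) ^ 2 := by positivity
    linarith
  push Not at hε1
  obtain ⟨n, hn⟩ : ∃ n, Rr s = n + 1 := ⟨Rr s - 1, by omega⟩
  obtain ⟨G, hG, hI⟩ := extremal (s := s) (n := n) (by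
    have : Rr s = sInf (RSet s) := rfl
    omega)
  have hnr : (Rr s : ℝ) - 1 = n := by rw [hn]; push_cast; ring
  set σ : ℝ := (s : ℝ) - 1 with hσ
  have hσ0 : 0 < σ := by linarith
  set ρ : ℝ := 1 + ε with hρ
  have hρ1 : 1 < ρ := by linarith
  set A : ℝ := 3 / (2 * ε) with hA
  have hA0 : 0 < A := by positivity
  set y : ℝ := ε * σ / A with hy
  have hy1 : ε ^ 2 / 3 * s ≤ y := by
    have : y = 2 * ε ^ 2 / 3 * σ := by rw [hy, hA]; field_simp
    rw [this, hσ]
    nlinarith [sq_nonneg ε, mul_nonneg (sq_nonneg ε) (sub_nonneg.mpr hsr)]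
  have hy0 : 0 < y := by positivity
  have hlogy : (1 - ε) * Real.log s ≤ Real.log y := by
    have h1 : Real.log (ε ^ 2 / 3 * s) ≤ Real.log y := Real.log_le_log (by positivity) hy1
    have h2 : Real.log (ε ^ 2 / 3 * s) = Real.log s - Real.log (3 / ε ^ 2) := by
      rw [Real.log_mul (by positivity) (by positivity)]
      have h3 : ε ^ 2 / 3 = (3 / ε ^ 2)⁻¹ := by field_simp
      rw [h3, Real.log_inv]
      ring
    rw [div_le_iff₀ h0] at hL
    linarith
  have hlogy0 : 0 ≤ Real.log y := le_trans (mul_nonneg (by linarith) hlogs) hlogy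
  have hlρ : 0 < Real.log ρ := Real.log_pos hρ1
  have hlρ2 : Real.log ρ ≤ ε := by
    have := Real.log_le_sub_one_of_pos (show 0 < ρ by linarith)
    linarith
  set J : ℕ := ⌊Real.log y / Real.log ρ⌋₊ + 1 with hJ
  have hJ1 : Real.log y / Real.log ρ ≤ J := by
    rw [hJ]; push_cast; exact (Nat.lt_floor_add_one _).le
  obtain ⟨I, _, hIi, hIc⟩ := aks G hG hρ1 hA0 J _ Finset.univ rfl
  have ht := t_le_of_ind (by omega) G hG hI
  rw [← hσ] at ht
  have hI' : (I.card : ℝ) ≤ σ := by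
    have h : I.card + 1 ≤ s := hI I hIi
    have h' : (I.card : ℝ) + 1 ≤ s := by exact_mod_cast h
    linarith
  have hF := F_lower (ρ := ρ) (A := A) (J := J)
    (t := (E G Finset.univ : ℝ) / (Finset.univ : Finset (Fin n)).card) (x := (1 + ε) * σ)
    (by linarith) hA0 (by positivity) (by
      intro j hj
      have h1 : (j : ℝ) ≤ Real.log y / Real.log ρ := by
        have h2 : j ≤ ⌊Real.log y / Real.log ρ⌋₊ := by omega
        exact le_trans (by exact_mod_cast h2)
          (Nat.floor_le (div_nonneg hlogy0 hlρ.le))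
      rw [le_div_iff₀ hlρ] at h1
      have h3 : Real.log (ρ ^ j) ≤ Real.log y := by rw [Real.log_pow]; exact h1
      have h4 : ρ ^ j ≤ y := (Real.log_le_log_iff (pow_pos (by linarith) j) hy0).mp h3
      have h5 : A * ρ ^ j ≤ A * y := mul_le_mul_of_nonneg_left h4 hA0.le
      have h6 : A * y = ε * σ := by rw [hy]; field_simp
      linarith)
  have hcn : ((Finset.univ : Finset (Fin n)).card : ℝ) = n := by simp
  rw [hnr]
  rw [hcn] at hIc hF
  have hB : B ρ A = (1 + ε) / ε * (1 + ε) := by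
    have hb1 : ρ - 1 = ε := by rw [hρ]; ring
    have hb2 : 3 / (2 * A) = ε := by rw [hA]; field_simp
    rw [B, hb1, hb2]
  have hBpos := B_pos hρ1 hA0
  have h1 : (n : ℝ) * (1 / B ρ A * (J / ((1 + ε) * σ))) ≤ σ := by
    refine le_trans ?_ (le_trans hIc hI')
    apply mul_le_mul_of_nonneg_left _ (Nat.cast_nonneg _)
    exact mul_le_mul_of_nonneg_left hF (one_div_pos.mpr hBpos).le
  have h2 : (n : ℝ) * J * ε ≤ (1 + ε) ^ 3 * σ ^ 2 := by
    have h3 : (n : ℝ) * (1 / B ρ A * (J / ((1 + ε) * σ)))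
        = n * J * ε / ((1 + ε) ^ 3 * σ) := by
      rw [hB]
      field_simp
    rw [h3, div_le_iff₀ (by positivity)] at h1
    nlinarith
  have h3 : (n : ℝ) * Real.log y ≤ n * J * ε := by
    have h4 : Real.log y ≤ J * ε := by
      rw [div_le_iff₀ hlρ] at hJ1
      exact le_trans hJ1 (mul_le_mul_of_nonneg_left hlρ2 (Nat.cast_nonneg _))
    have := mul_le_mul_of_nonneg_left h4 (Nat.cast_nonneg (α := ℝ) n)
    linarith
  have h5 := mul_le_mul_of_nonneg_left hlogy (Nat.cast_nonneg (α := ℝ) n)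
  linarith

theorem main_term {δ : ℝ} (h0 : 0 < δ) (h1 : δ < 1) :
    ∃ s0 : ℕ, 3 ≤ s0 ∧ ∀ s : ℕ, s0 ≤ s →
      (1 - δ) * Real.log s ≤ ((s : ℝ) - 1) * (s - 2) / (Rr s - 1) := by
  obtain ⟨s1, hs1⟩ := Rr_log (ε := δ / 16) (by positivity)
  obtain ⟨s2, hs2⟩ := exists_nat_gt (2 / δ + 1)
  refine ⟨max (max s1 s2) 3, le_max_right _ _, ?_⟩
  intro s hs
  have h3 : 3 ≤ s := le_trans (le_max_right _ _) hs
  have hss1 : s1 ≤ s := le_trans (le_trans (le_max_left _ _) (le_max_left _ _)) hs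
  have hss2 : s2 ≤ s := le_trans (le_trans (le_max_right _ _) (le_max_left _ _)) hs
  have h := hs1 s hss1
  have hsr : (3:ℝ) ≤ s := by exact_mod_cast h3
  have hs2r : 2 / δ + 1 < s := lt_of_lt_of_le hs2 (by exact_mod_cast hss2)
  have hR : (0:ℝ) < (Rr s : ℝ) - 1 := by
    have h1 : 2 * (s - 1) < Rr s := Rr_lower (by omega)
    have h2 : 2 ≤ Rr s := by omega
    have h3 : (2:ℝ) ≤ Rr s := by exact_mod_cast h2
    linarith
  set n : ℝ := (Rr s : ℝ) - 1 with hn
  have hlogs : 0 ≤ Real.log (s : ℝ) := Real.log_natCast_nonneg s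
  rw [le_div_iff₀ hR]
  have h4 : 2 < δ * (s - 1) := by
    have h5 : 2 / δ < s - 1 := by linarith
    rw [div_lt_iff₀ h0] at h5
    linarith
  have h5 : (1 - δ / 2) * ((s : ℝ) - 1) ≤ s - 2 := by linarith
  have h6 : (1 + δ / 16) ^ 3 ≤ 1 + δ / 4 := by nlinarith [mul_pos h0 h0, mul_pos (mul_pos h0 h0) h0]
  have h7 : (1 - δ) * (1 + δ / 4) ≤ (1 - δ / 2) * (1 - δ / 16) := by nlinarith
  have h8 : n * ((1 - δ / 16) * Real.log s) ≤ (1 + δ / 4) * ((s : ℝ) - 1) ^ 2 :=
    le_trans h (mul_le_mul_of_nonneg_right h6 (sq_nonneg _))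
  -- multiply by 1 - δ
  have h9 : (1 - δ) * (n * ((1 - δ / 16) * Real.log s))
      ≤ (1 - δ) * ((1 + δ / 4) * ((s : ℝ) - 1) ^ 2) :=
    mul_le_mul_of_nonneg_left h8 (by linarith)
  have h10 : (1 - δ) * (1 + δ / 4) * ((s : ℝ) - 1) ^ 2
      ≤ (1 - δ / 2) * (1 - δ / 16) * ((s : ℝ) - 1) ^ 2 :=
    mul_le_mul_of_nonneg_right h7 (sq_nonneg _)
  have h11 : (1 - δ / 16) * ((1 - δ / 2) * ((s : ℝ) - 1) * (s - 1))
      ≤ (1 - δ / 16) * ((s - 2) * (s - 1)) := by
    apply mul_le_mul_of_nonneg_left _ (by linarith)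
    exact mul_le_mul_of_nonneg_right h5 (by linarith)
  have h12 : (1 - δ / 16) * ((1 - δ) * Real.log s * n)
      ≤ (1 - δ / 16) * (((s : ℝ) - 1) * (s - 2)) := by nlinarith
  exact le_of_mul_le_mul_left h12 (by linarith)

theorem two {δ : ℝ} (h0 : 0 < δ) (h1 : δ < 1) : ∃ s0 : ℕ, 3 ≤ s0 ∧ ∀ s : ℕ, s0 ≤ s →
    (Rr s : ℝ) - Rr (s - 2) ≤ 2 * s - (1 - δ) * Real.log s := by
  obtain ⟨s0, h3, hs0⟩ := main_term h0 h1
  refine ⟨s0, h3, fun s hs => ?_⟩
  have h := window (k := 2) (s := s) (by omega) (by omega)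
  have h2 := hs0 s hs
  norm_num [Nat.choose] at h
  linarith

theorem windows {δ : ℝ} (h0 : 0 < δ) (h1 : δ < 1) :
    ∃ s0 : ℕ, ∀ s k : ℕ, s0 ≤ s → (k : ℝ) * s ≤ δ / 8 * Rr s →
    (Rr s : ℝ) - Rr (s - k) ≤ k * s - (1 - δ) * (k.choose 2 : ℝ) * Real.log s := by
  obtain ⟨s0, h3, hs0⟩ := main_term (δ := δ / 2) (by linarith) (by linarith)
  refine ⟨s0, fun s k hs hk => ?_⟩
  have hsr : (3:ℝ) ≤ s := by exact_mod_cast (le_trans h3 hs)
  have hR2 : (Rr s : ℝ) ≤ s * s := by exact_mod_cast Rr_le s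
  have hks : k < s := by
    have h4 : (k : ℝ) * s ≤ δ / 8 * (s * s) :=
      le_trans hk (mul_le_mul_of_nonneg_left hR2 (by linarith))
    have h5 : (k : ℝ) * s < s * s := by nlinarith
    have h6 : (k : ℝ) < s := lt_of_mul_lt_mul_right h5 (by linarith)
    exact_mod_cast h6
  have h := window (k := k) (s := s) (by omega) hks
  have h2 := hs0 s hs
  have hR : (2:ℝ) ≤ Rr s := by
    have h1 : 2 * (s - 1) < Rr s := Rr_lower (by omega)
    have h2 : 2 ≤ Rr s := by omega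
    exact_mod_cast h2
  set n : ℝ := (Rr s : ℝ) - 1 with hn
  have hn0 : 0 < n := by linarith
  have hlogs : 0 ≤ Real.log (s : ℝ) := Real.log_natCast_nonneg s
  rcases Nat.lt_or_ge k 2 with h4 | h4
  · have hc2 : k.choose 2 = 0 := Nat.choose_eq_zero_of_lt h4
    have hc3 : k.choose 3 = 0 := Nat.choose_eq_zero_of_lt (by omega)
    rw [hc2, hc3] at h
    rw [hc2]
    norm_num at h ⊢
    linarith
  · have hk2 : (2:ℝ) ≤ k := by exact_mod_cast h4
    have hc3 : (k.choose 3 : ℝ) = (k.choose 2 : ℝ) * (k - 2) / 3 := by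
      have h4' : k.choose 3 * 3 = k.choose 2 * (k - 2) := Nat.choose_succ_right_eq k 2
      have h5 : ((k.choose 3 * 3 : ℕ) : ℝ) = ((k.choose 2 * (k - 2) : ℕ) : ℝ) := by
        exact_mod_cast h4'
      push_cast [Nat.cast_sub h4] at h5
      linarith
    set c : ℝ := (k.choose 2 : ℝ) with hc
    have hc0 : 0 ≤ c := Nat.cast_nonneg _
    set M : ℝ := ((s : ℝ) - 1) * (s - 2) / n with hM
    have hM0 : 0 ≤ M := div_nonneg (mul_nonneg (by linarith) (by linarith)) hn0.le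
    -- the error term is at most `δ/2` times the main term
    have h6 : (k.choose 3 : ℝ) * (s - 1) * (2 * s - 3) ^ 2 / n ^ 2 ≤ δ / 2 * (c * M) := by
      rw [hc3]
      have h7 : ((k : ℝ) - 2) / 3 * (2 * s - 3) ^ 2 ≤ δ / 2 * ((s - 2) * n) := by
        have h8 : (2 * (s : ℝ) - 3) ^ 2 ≤ 4 * s * (s - 2) := by nlinarith
        have h9 : ((k : ℝ) - 2) / 3 * (2 * s - 3) ^ 2 ≤ ((k : ℝ) - 2) / 3 * (4 * s * (s - 2)) :=
          mul_le_mul_of_nonneg_left h8 (by linarith)
        have h10 : ((k : ℝ) - 2) * s ≤ δ / 4 * n := by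
          have h11 : (Rr s : ℝ) ≤ 2 * n := by rw [hn]; linarith
          have h12 : δ / 8 * (Rr s : ℝ) ≤ δ / 8 * (2 * n) :=
            mul_le_mul_of_nonneg_left h11 (by linarith)
          nlinarith
        have h13 : ((k : ℝ) - 2) * s * (s - 2) ≤ δ / 4 * n * (s - 2) :=
          mul_le_mul_of_nonneg_right h10 (by linarith)
        have h14 : 0 ≤ δ * n * (s - 2) := mul_nonneg (mul_nonneg h0.le hn0.le) (by linarith)
        nlinarith
      have h10 : c * (k - 2) / 3 * (s - 1) * (2 * s - 3) ^ 2 / n ^ 2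
          = (c * (s - 1) / n ^ 2) * (((k : ℝ) - 2) / 3 * (2 * s - 3) ^ 2) := by ring
      have h11 : δ / 2 * (c * M) = (c * (s - 1) / n ^ 2) * (δ / 2 * ((s - 2) * n)) := by
        rw [hM]
        field_simp
      rw [h10, h11]
      apply mul_le_mul_of_nonneg_left h7
      apply div_nonneg (mul_nonneg hc0 (by linarith)) (sq_nonneg _)
    have h13 : c * (s - 1) * (s - 2) / n = c * M := by rw [hM]; ring
    rw [h13] at h
    have h14 : (1 - δ / 2) * ((1 - δ / 2) * Real.log s) ≤ (1 - δ / 2) * M :=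
      mul_le_mul_of_nonneg_left h2 (by linarith)
    have h15 : (1 - δ) * Real.log s ≤ (1 - δ / 2) * M := by
      refine le_trans ?_ h14
      have : 0 ≤ δ ^ 2 / 4 * Real.log s := by positivity
      nlinarith
    have h16 := mul_le_mul_of_nonneg_left h15 hc0
    nlinarith

end Pool.MP65cef3.UW
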